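import Pool.Agent.Lib_helper15.PFM.Defs

/-!
# PENT (MP_892e4c_nt): first moments, the polygons of the pentagon theorem (helper15)
-/

set_option autoImplicit false

namespace Pool.Agent.PFM

open Finset Pool.Agent.PENT Pool.Agent.PENK

theorem floor_lt_of_lt {P : ℝ} {l : ℕ} (h : P < (l : ℝ)) (hP : 0 ≤ P) : ⌊P⌋₊ < l :=
  (Nat.floor_lt hP).2 h

theorem PP_pos (X : ℕ) : 0 < PP X := Real.exp_pos _

theorem isP_of_gp {p : Pool.Agent.PENT.Par} {X : ℕ} {u : PolyK 5} (h : p.GP X u) :
    IsP univ ⌊PP X⌋₊ u := by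
  refine ⟨?_, ?_, ?_, ?_⟩
  · intro i
    rw [Int.isCoprime_iff_gcd_eq_one]
    by_contra hne
    obtain ⟨l, hl, hd⟩ := Nat.exists_prime_and_dvd hne
    have h1 : (l : ℤ) ∣ (u i).1 := (Int.natCast_dvd_natCast.2 hd).trans (Int.gcd_dvd_left _ _)
    have h2 : (l : ℤ) ∣ (u i).2 := (Int.natCast_dvd_natCast.2 hd).trans (Int.gcd_dvd_right _ _)
    have h3 : (l : ℤ) ∣ dt (u i) (u (i + 1)) := by
      unfold dt
      exact dvd_sub (h1.mul_right _) (h2.mul_right _)
    have h4 : (l : ℤ) ∣ dt (u (i - 1)) (u (i - 1 + 1)) := by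
      rw [sub_add_cancel]
      unfold dt
      exact dvd_sub (h2.mul_left _) (h1.mul_left _)
    have hne' : i ≠ i - 1 := by
      intro he
      have : (1 : Fin 5) = 0 := by
        have := sub_eq_self.1 he.symm
        exact this
      exact absurd this (by decide)
    have h5 := (h.cop i (i - 1) hne').isUnit_of_dvd' h3 h4
    exact (Nat.prime_iff_prime_int.1 hl).not_isUnit h5
  · intro j _
    exact (h.dp j).1
  · intro j _ l hl hd
    obtain ⟨a, b⟩ := (h.dp j).2 l hl hd
    exact ⟨floor_lt_of_lt b (PP_pos X).le, a⟩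
  · intro i _ j _ hij
    have := h.cop i j hij
    rw [Int.isCoprime_iff_gcd_eq_one, Int.gcd_eq_natAbs] at this
    exact this

theorem dn_ne_zero {K : ℕ} [NeZero K] {E : Finset (Fin K)} {P0 : ℕ} {u : PolyK K}
    (h : IsP E P0 u) {j : Fin K} (hj : j ∈ E) : dn u j ≠ 0 := (h.sq j hj).ne_zero

theorem DE_ne_zero {K : ℕ} [NeZero K] {E : Finset (Fin K)} {P0 : ℕ} {u : PolyK K}
    (h : IsP E P0 u) : DE E u ≠ 0 := Finset.prod_ne_zero_iff.2 (fun _ hj => dn_ne_zero h hj)

/-- products over the primes of `DE` split over the edges -/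
theorem prod_DE {K : ℕ} [NeZero K] {E : Finset (Fin K)} {P0 : ℕ} {u : PolyK K}
    (h : IsP E P0 u) (f : ℕ → ℝ) :
    ∏ l ∈ (DE E u).primeFactors, f l = ∏ j ∈ E, ∏ l ∈ (dn u j).primeFactors, f l := by
  classical
  have h1 : (DE E u).primeFactors = E.biUnion (fun j => (dn u j).primeFactors) := by
    ext l
    rw [Finset.mem_biUnion]
    constructor
    · intro hl
      have hp := Nat.prime_of_mem_primeFactors hl
      have hd := Nat.dvd_of_mem_primeFactors hl
      unfold DE at hd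
      obtain ⟨j, hj, hd'⟩ := (Prime.dvd_finsetProd_iff hp.prime _).1 hd
      exact ⟨j, hj, Nat.mem_primeFactors.2 ⟨hp, hd', dn_ne_zero h hj⟩⟩
    · rintro ⟨j, hj, hl⟩
      exact Nat.mem_primeFactors.2 ⟨Nat.prime_of_mem_primeFactors hl,
        (Nat.dvd_of_mem_primeFactors hl).trans (Finset.dvd_prod_of_mem _ hj), DE_ne_zero h⟩
  rw [h1, Finset.prod_biUnion]
  intro i hi j hj hij
  rw [Function.onFun, Finset.disjoint_left]
  intro l hl hl'
  have hc := h.co i hi j hj hij
  have hp := Nat.prime_of_mem_primeFactors hl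
  have := Nat.dvd_gcd (Nat.dvd_of_mem_primeFactors hl) (Nat.dvd_of_mem_primeFactors hl')
  rw [hc] at this
  exact hp.one_lt.ne' (Nat.dvd_one.1 this)

/-- the edge factor at a prime of `d_j` -/
theorem edge_factor {K : ℕ} [NeZero K] {E : Finset (Fin K)} {P0 : ℕ} {u : PolyK K}
    (h : IsP E P0 u) (a : Fin K → ℝ) {j : Fin K} (hj : j ∈ E) {l : ℕ} (hl : l.Prime)
    (hd : l ∣ dn u j) : ∏ i ∈ E, (if l ∣ dn u i then a i else 1) = a j := by
  classical
  rw [Finset.prod_eq_single j]
  · rw [if_pos hd]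
  · intro i hi hij
    rw [if_neg]
    intro hd'
    have hc := h.co i hi j hj hij
    have := Nat.dvd_gcd hd' hd
    rw [hc] at this
    exact hl.one_lt.ne' (Nat.dvd_one.1 this)
  · intro hn
    exact absurd hj hn

/-- the weight as edge part times vertex part -/
theorem W1_split {K : ℕ} [NeZero K] {E vq : Finset (Fin K)} {P0 P : ℕ} (hP0 : 2 ≤ P0)
    {u : PolyK K} (h : IsP E P0 u) (W : Wts K) (R : Bas) :
    W1 W P0 P E vq u R =
      (∏ j ∈ E, ∏ l ∈ (dn u j).primeFactors, lw P l (W.al j)) *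
        ∏ p ∈ (prs 2 P).filter (fun p => ¬ p ∣ DE E u), ph W P0 vq u p R := by
  classical
  unfold W1
  rw [← Finset.prod_filter_mul_prod_filter_not (prs 2 P) (fun p => p ∣ DE E u)]
  congr 1
  · have e1 : ∏ j ∈ E, ∏ l ∈ (dn u j).primeFactors, lw P l (W.al j) =
        ∏ l ∈ (DE E u).primeFactors, (if l ≤ P then ∏ j ∈ E, (if l ∣ dn u j then W.al j else 1)
          else 1) := by
      rw [prod_DE h]
      apply Finset.prod_congr rfl
      intro j hj
      apply Finset.prod_congr rfl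
      intro l hl
      rw [edge_factor h W.al hj (Nat.prime_of_mem_primeFactors hl)
        (Nat.dvd_of_mem_primeFactors hl)]
      rfl
    rw [e1, ← Finset.prod_filter]
    have e2 : (prs 2 P).filter (fun p => p ∣ DE E u) =
        (DE E u).primeFactors.filter (fun l => l ≤ P) := by
      ext l
      simp only [prs, Finset.mem_filter, Finset.mem_Ioc, Nat.mem_primeFactors]
      constructor
      · rintro ⟨⟨⟨a, b⟩, c⟩, d⟩
        exact ⟨⟨c, d, DE_ne_zero h⟩, b⟩
      · rintro ⟨⟨c, d, _⟩, b⟩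
        refine ⟨⟨⟨?_, b⟩, c⟩, d⟩
        unfold DE at d
        obtain ⟨j, hj, hd'⟩ := (Prime.dvd_finsetProd_iff c.prime _).1 d
        have := (h.ro j hj l c hd').1
        omega
    rw [← e2]
    apply Finset.prod_congr rfl
    intro l hl
    rw [if_pos (Finset.mem_filter.1 hl).2]
  · apply Finset.prod_congr rfl
    intro l hl
    rw [if_neg (Finset.mem_filter.1 hl).2]

end Pool.Agent.PFM
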