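import Pool.Agent.Lib_helper18.PENK.Defs2
import Pool.Agent.Lib_helper97.PENT.Defs

/-!
# PENT (MP_892e4c_nt): first moments of the weights (helper15)

Upper bounds for first moments `∑_τ w(τ)` with general weights: the sum over the forms `R` for a fixed
polygon `u` (first sieve), then the sum over the polygons (second sieve).  `K`-gons (`Fin K`); `E`: the
edges with a divisibility condition; `fe ⊆ E`: the edges whose determinants are summed; `vq`: the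
vertices `i` at which the primes of `R(u_i)` are weighted.
-/

set_option autoImplicit false

namespace Pool.Agent.PFM

open Finset Pool.Agent.PENT Pool.Agent.PENK

/-- the product of the `d_j`, `j ∈ E` -/
def DE {K : ℕ} [NeZero K] (E : Finset (Fin K)) (u : PolyK K) : ℕ := ∏ j ∈ E, dn u j

/-- the polygons: primitive vertices, the `d_j`, `j ∈ E`, squarefree, coprime, with primes `≡ 1 mod 4`
larger than `P0` -/
structure IsP {K : ℕ} [NeZero K] (E : Finset (Fin K)) (P0 : ℕ) (u : PolyK K) : Prop where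
  pr : ∀ i, IsCoprime (u i).1 (u i).2
  sq : ∀ j ∈ E, Squarefree (dn u j)
  ro : ∀ j ∈ E, ∀ p : ℕ, p.Prime → p ∣ dn u j → P0 < p ∧ p % 4 = 1
  co : ∀ i ∈ E, ∀ j ∈ E, i ≠ j → Nat.Coprime (dn u i) (dn u j)

/-- the local factor of the vertices at `p` -/
noncomputable def ph {K : ℕ} (W : Wts K) (P0 : ℕ) (vq : Finset (Fin K)) (u : PolyK K) (p : ℕ)
    (R : Bas) : ℝ := ∏ i ∈ vq, ind p (Rf R (u i)) (W.gi P0 p i)

/-- `v_p(u)` -/
noncomputable def v1 {K : ℕ} (W : Wts K) (P0 : ℕ) (vq : Finset (Fin K)) (u : PolyK K) (p : ℕ) : ℝ :=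
  mV p (fun R => 1 - ph W P0 vq u p R)

/-- the local factor of the second sieve -/
noncomputable def Ph {K : ℕ} [NeZero K] (W : Wts K) (P0 : ℕ) (fe vq : Finset (Fin K))
    (u : PolyK K) (p : ℕ) : ℝ :=
  if p ∣ DE fe u then
    (if p ≤ P0 ∨ p % 4 = 3 then 0 else ∏ j ∈ fe, if p ∣ dn u j then 2 * W.al j else 1)
  else 1 - v1 W P0 vq u p

/-- the density of the second sieve is at least `bd / p` -/
noncomputable def bd {K : ℕ} (fe vq : Finset (Fin K)) (W : Wts K) (P0 p : ℕ) : ℝ :=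
  if p % 4 = 3 then (fe.card : ℝ)
  else if p ≤ P0 then (fe.card : ℝ) + 2 * ∑ i ∈ vq, (1 - W.bo i)
  else ∑ j ∈ fe, (1 - 2 * W.al j) + 2 * ∑ i ∈ vq, (1 - W.be i)

/-- the local facts about a law of polygons modulo `p` -/
structure LocS {K : ℕ} [NeZero K] (fe vq : Finset (Fin K)) (p : ℕ) (L : Finset (PolyK K)) (C : ℝ) :
    Prop where
  ne : L.Nonempty
  a : ∀ j ∈ fe, 1 / (p : ℝ) - C / (p : ℝ) ^ 2 ≤ mL L (fun u => ich ((p : ℤ) ∣ dl u j))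
  a' : ∀ j ∈ fe, mL L (fun u => ich ((p : ℤ) ∣ dl u j)) ≤ C / p
  b : ∀ i ∈ fe, ∀ j ∈ fe, i ≠ j →
    mL L (fun u => ich ((p : ℤ) ∣ dl u i ∧ (p : ℤ) ∣ dl u j)) ≤ C / (p : ℝ) ^ 2
  nz : ∀ u ∈ L, (∀ j ∈ fe, ¬ (p : ℤ) ∣ dl u j) → ∀ i ∈ vq,
    ¬ ((p : ℤ) ∣ (u i).1 ∧ (p : ℤ) ∣ (u i).2)
  d : ∀ i ∈ vq, ∀ j ∈ vq, i ≠ j →
    mL L (fun u => ich ((∀ j ∈ fe, ¬ (p : ℤ) ∣ dl u j) ∧ (p : ℤ) ∣ dt (u i) (u j))) ≤ C / p

/-- the weight of `(R, u)`: `al j` at the primes `2 < p ≤ P` of `d_j`, `j ∈ E`, and `ph` at the other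
primes `2 < p ≤ P` -/
noncomputable def W1 {K : ℕ} [NeZero K] (W : Wts K) (P0 P : ℕ) (E vq : Finset (Fin K))
    (u : PolyK K) (R : Bas) : ℝ :=
  ∏ p ∈ prs 2 P, if p ∣ DE E u then ∏ j ∈ E, (if p ∣ dn u j then W.al j else 1)
    else ph W P0 vq u p R

/-- the weights of the diagonal of the pentagon, `s = 2 ^ (-1/20)` -/
noncomputable def Wd : Wts 5 where
  al := ![(4 : ℝ) ^ (-(21 / 20) : ℝ), (2 : ℝ) ^ (-(1 / 20) : ℝ) / 4, (4 : ℝ) ^ (-(21 / 20) : ℝ),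
    (4 : ℝ) ^ (-(21 / 20) : ℝ), (2 : ℝ) ^ (-(1 / 20) : ℝ) / 4]
  be := ![(2 : ℝ) ^ (-(1 / 20) : ℝ) / 4, (2 : ℝ) ^ (-(1 / 20) : ℝ) / 4, (4 : ℝ) ^ (-(21 / 20) : ℝ),
    (4 : ℝ) ^ (-(21 / 20) : ℝ), (4 : ℝ) ^ (-(21 / 20) : ℝ)]
  bo := ![1 / 2, 1 / 2, (2 : ℝ) ^ (-(21 / 20) : ℝ), (2 : ℝ) ^ (-(21 / 20) : ℝ),
    (2 : ℝ) ^ (-(21 / 20) : ℝ)]

/-- the form of a polygon -/
def bas (τ : Pol 5) : Bas := (τ.a, τ.b, τ.c)

/-- the box `[1, A_j]²` for the vertex `j` -/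
noncomputable def Bo {K : ℕ} (A : Fin K → ℕ) : Finset (PolyK K) :=
  Fintype.piFinset (fun j => (Icc (1 : ℤ) (A j)) ×ˢ (Icc (1 : ℤ) (A j)))

/-- the uniform law -/
noncomputable def Un (K p : ℕ) : Finset (PolyK K) := Fintype.piFinset (fun _ : Fin K => L1 p)

end Pool.Agent.PFM
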